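import Pool.Agent.H89.KD.Stmts
import Pool.Agent.H29.Sym.BC

/-!
# Board `kd`, module GRE: the Green formulas
-/

set_option autoImplicit false

open MeasureTheory Set Filter Topology
open scoped ContDiff

namespace Pool.Agent.H89.KD

open Pool.Agent.H84 Pool.Agent.H84.Sym Pool.Agent.H84.Sym.P2x Pool.Agent.H19.KL
open Pool.Agent.H73.KG Pool.Agent.H20.KH

theorem GRE_D_li {E : Type} [NormedAddCommGroup E] [InnerProductSpace ℝ E] (e v x : E) :
    D v (li e) x = inner ℝ e v := by
  have h1 : HasFDerivAt (li e) (innerSL ℝ e) x := (innerSL ℝ e).hasFDerivAt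
  unfold D
  rw [h1.fderiv]
  rfl

theorem gre_thm (E : Type) [NormedAddCommGroup E] [InnerProductSpace ℝ E]
    [FiniteDimensional ℝ E] [MeasurableSpace E] [BorelSpace E] : GREStmt E := by
  intro U t hPP ι _ b
  obtain ⟨⟨C, hU⟩, hprob⟩ := hPP
  have hU1 : ContDiff ℝ 1 U := hU.smooth.of_le (by norm_num)
  refine ⟨fun u hu => ?_, fun f w hf hc hw => ?_, fun e w hw => ?_⟩
  · have h := C29.green_sub b (f := fun _ => (0:ℝ)) hU1 hu contDiff_const (-1)
    have h1 : ∀ x, LO b U u x * ((0:ℝ) - -1) = LO b U u x := fun x => by ring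
    have h2 : ∀ x, (∑ i, D (b i) u x * D (b i) (fun _ => (0:ℝ)) x) = 0 := by
      intro x
      refine Finset.sum_eq_zero fun i _ => ?_
      unfold D
      simp
    simp only [h1, h2, integral_zero, neg_zero] at h
    exact h
  · have hw2 : ContDiff ℝ 2 w := by simpa using contDiff_infty.mp hw.1 2
    have h := green b hU1 hw2 hf (Or.inl hw.2)
    have h1 : ∀ x, f x * (-LO b U w x) = -(LO b U w x * f x) := fun x => by ring
    simp only [h1, integral_neg]
    rw [h, neg_neg, integral_finsetSum]
    · refine Finset.sum_congr rfl fun i _ => integral_congr_ae (Eventually.of_forall fun x => ?_)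
      exact mul_comm _ _
    · intro i _
      refine integrable_mu hU1.continuous ?_ ?_
      · exact ((contDiff_D (m := 0) (hw2.of_le (by norm_num : (1:WithTop ℕ∞) ≤ 2)) (by norm_num)
          (b i)).continuous).mul (contDiff_D (m := 0) hf (by norm_num) (b i)).continuous
      · exact (hcs_D hw.2 (b i)).mul_right
  · have hw2 : ContDiff ℝ 2 w := by simpa using contDiff_infty.mp hw.1 2
    have hli : ContDiff ℝ 1 (li e) := (innerSL ℝ e).contDiff
    have h := green b hU1 hw2 hli (Or.inl hw.2)
    have h1 : ∀ x, li e x * (-LO b U w x) = -(LO b U w x * li e x) := fun x => by ring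
    simp only [h1, integral_neg]
    rw [h, neg_neg]
    refine integral_congr_ae (Eventually.of_forall fun x => ?_)
    have h2 : e = ∑ i, (inner ℝ (b i) e : ℝ) • b i := (b.sum_repr' e).symm
    change (∑ i, D (b i) w x * D (b i) (li e) x) = D e w x
    have h3 : D e w x = ∑ i, (inner ℝ (b i) e : ℝ) * D (b i) w x := by
      unfold D
      conv_lhs => rw [h2]
      rw [map_sum]
      refine Finset.sum_congr rfl fun i _ => ?_
      rw [map_smul, smul_eq_mul]
    rw [h3]
    refine Finset.sum_congr rfl fun i _ => ?_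
    rw [GRE_D_li, real_inner_comm]
    ring

end Pool.Agent.H89.KD
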